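import Pool.Agent.Lib.MP_071053_nt.Sq.Kak3

set_option autoImplicit false

namespace Pool.Agent.Results.MP_071053_nt.KakeyaSets

/-- (1) If a finite set `E` of integers contains an arithmetic progression of length `w` with every
difference `0 ≤ D ≤ 2 n` then the first `n` squares are covered by a set of at most
`n / w + 5 w |E|` elements.  (2) If `K ⊆ ℝ ^ (d + 1)` contains a unit segment in every direction and
for arbitrarily small `δ` is covered by at most `δ ^ (-(d + 1 - ε))` balls of radius `δ`, then for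
infinitely many `n` the first `n` squares are covered by a set of at most
`n ^ (1 - ε / (d (d + 3)))` elements. -/
theorem result :
    (∀ (w n : ℕ) (E : Finset ℤ), 2 ≤ w → 1 ≤ n →
      (∀ D : ℕ, D ≤ 2 * n → ∃ a : ℤ, ∀ i : ℕ, i < w → a + i * D ∈ E) →
      ∃ A : Finset ℕ, (∀ k : ℕ, 1 ≤ k → k ≤ n → ∃ a ∈ A, ∃ b ∈ A, a + b = k ^ 2) ∧
        (A.card : ℝ) ≤ (n : ℝ) / w + 5 * w * E.card) ∧
    (∀ (d : ℕ) (K : Set (EuclideanSpace ℝ (Fin (d + 1)))) (ε : ℝ), 1 ≤ d → 0 < ε → ε ≤ d + 1 →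
      (∀ v : EuclideanSpace ℝ (Fin (d + 1)), ‖v‖ = 1 →
        ∃ x, ∀ t ∈ Set.Icc (0 : ℝ) 1, x + t • v ∈ K) →
      (∀ δ₀ : ℝ, 0 < δ₀ → ∃ δ : ℝ, 0 < δ ∧ δ < δ₀ ∧
        ∃ s : Finset (EuclideanSpace ℝ (Fin (d + 1))),
          K ⊆ ⋃ x ∈ s, Metric.closedBall x δ ∧ (s.card : ℝ) ≤ δ ^ (-((d : ℝ) + 1 - ε))) →
      ∀ N : ℕ, ∃ n : ℕ, N ≤ n ∧ ∃ A : Finset ℕ,
        (∀ k : ℕ, 1 ≤ k → k ≤ n → ∃ a ∈ A, ∃ b ∈ A, a + b = k ^ 2) ∧
        (A.card : ℝ) ≤ (n : ℝ) ^ (1 - ε / (d * (d + 3)))) := by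
  refine ⟨fun w n E hw hn hE => ?_, fun d K ε hd hε hε1 hK hcov =>
    Pool.Agent.SqLB.kakeya_cover d hd K hK ε hε hε1 hcov⟩
  obtain ⟨A, hA, hAc⟩ := Pool.Agent.SqLB.cover_of_hasAP w n hw hn E (fun D hD => hE D (by omega))
  refine ⟨A, hA, ?_⟩
  have h1 : (A.card : ℝ) ≤ ((n / w : ℕ) : ℝ) + 5 * w * E.card := by exact_mod_cast hAc
  have h2 : ((n / w : ℕ) : ℝ) ≤ (n : ℝ) / w := Nat.cast_div_le
  linarith

end Pool.Agent.Results.MP_071053_nt.KakeyaSets
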