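import Pool.Agent.Lib.MP_071053_nt.Sq.Low

set_option autoImplicit false

namespace Pool.Agent.Results.MP_071053_nt.LowerBound

/-- (1) For finite sets `A`, `B` of integers of absolute value at most `X` the number of pairs
`(a, b)` with `a + b` a nonzero square is at most `C (|A| √|B| + |B| √|A|) log X`.
(2) Every set which covers the first `n` squares has at least `c (n / log n) ^ (2/3)` elements. -/
theorem result :
    (∃ C : ℝ, ∀ X : ℕ, 2 ≤ X → ∀ A B : Finset ℤ, (∀ a ∈ A, |a| ≤ (X : ℤ)) → (∀ b ∈ B, |b| ≤ (X : ℤ)) →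
      ({x : ℤ × ℤ | x.1 ∈ A ∧ x.2 ∈ B ∧ ∃ k : ℤ, k ≠ 0 ∧ x.1 + x.2 = k ^ 2}.ncard : ℝ) ≤
        C * (((A.card : ℝ) * Real.sqrt B.card + B.card * Real.sqrt A.card) * Real.log X)) ∧
    (∃ c : ℝ, 0 < c ∧ ∀ n : ℕ, 2 ≤ n → ∀ A : Finset ℕ,
      (∀ k : ℕ, 1 ≤ k → k ≤ n → ∃ a ∈ A, ∃ b ∈ A, a + b = k ^ 2) →
        c * ((n : ℝ) / Real.log n) ^ ((2 : ℝ) / 3) ≤ (A.card : ℝ)) := by
  refine ⟨⟨6000000000, fun X hX A B hA hB => ?_⟩, Pool.Agent.SqLB.cover_lower⟩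
  have h1 := Pool.Agent.SqLB.pairs_all X hX A B hA hB
  have h2 : {x : ℤ × ℤ | x.1 ∈ A ∧ x.2 ∈ B ∧ ∃ k : ℤ, k ≠ 0 ∧ x.1 + x.2 = k ^ 2} =
      (Pool.Agent.SqLB.SqP A B : Set (ℤ × ℤ)) := by
    ext x
    simp [Pool.Agent.SqLB.SqP, and_assoc]
  rw [h2, Set.ncard_coe_finset]
  exact h1

end Pool.Agent.Results.MP_071053_nt.LowerBound
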