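import Pool.Agent.Lib.MP_071053_nt.Sq.Str

set_option autoImplicit false

open scoped Pointwise

namespace Pool.Agent.Results.MP_071053_nt.StructuredSets

/-- If `A` covers the first `n` squares and `A` is contained in the union of `P 1, …, P J` then
`J |A| (n + ∑ |P i - P i|) ≥ n ^ (2 - C / log log n)`; if `A` is the union of the `P i` and
`|P i - P i| ≤ K |P i|` then `J √K |A| ≥ n ^ (1 - C / log log n)`. -/
theorem result : ∃ C : ℝ, 0 < C ∧ ∀ n : ℕ, 3 ≤ n → ∀ (J : ℕ) (P : Fin J → Finset ℤ) (A : Finset ℤ),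
    (∀ a ∈ A, ∃ i, a ∈ P i) →
    (∀ k : ℕ, 1 ≤ k → k ≤ n → ∃ a ∈ A, ∃ b ∈ A, a + b = (k : ℤ) ^ 2) →
    (n : ℝ) ^ (2 - C / Real.log (Real.log n)) ≤ J * (A.card : ℝ) * (n + ∑ i, ((P i - P i).card : ℝ)) ∧
    ∀ K : ℝ, (∀ i, P i ⊆ A ∧ ((P i - P i).card : ℝ) ≤ K * (P i).card) →
      (n : ℝ) ^ (1 - C / Real.log (Real.log n)) ≤ J * Real.sqrt K * (A.card : ℝ) :=
  Pool.Agent.SqLB.struct_lower

end Pool.Agent.Results.MP_071053_nt.StructuredSets
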