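import Pool.Agent.Lib.MP_071053_nt.Asymptotics

set_option autoImplicit false

namespace Pool.Agent.Results.MP_071053_nt.UpperBound

/-- There is a constant `c > 0` such that for all large `n` the first `n` squares are covered by
`A + A` for some finite set `A` of at most `n ^ (1 - c / log log n)` nonnegative integers. -/
theorem result : ∃ c : ℝ, 0 < c ∧ ∃ N : ℕ, ∀ n : ℕ, N ≤ n → ∃ A : Finset ℕ,
    (∀ k : ℕ, 1 ≤ k → k ≤ n → ∃ a ∈ A, ∃ b ∈ A, a + b = k ^ 2) ∧
      (A.card : ℝ) ≤ (n : ℝ) ^ (1 - c / Real.log (Real.log n)) :=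
  Pool.Agent.Lib.MP_071053_nt.main

end Pool.Agent.Results.MP_071053_nt.UpperBound
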